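import Pool.Agent.helper36.PP.SpecL

/-!
# Project pp: module FL (line fields, quantitative form)
-/

set_option autoImplicit false

open Complex Metric Set Filter Topology MeasureTheory MPS MQ Pool.Agent.helper98.ILF

noncomputable section

namespace PPS

/-- a polynomial satisfies `Bd` for some `a`. -/
theorem FL_bd (f : Polynomial ℂ) (h : 2 ≤ f.natDegree) : ∃ a : ℝ, 0 < a ∧ Bd f.natDegree a f := by
  have hf0 : f ≠ 0 := by
    rintro rfl
    simp at h
  have hl : 0 < ‖f.leadingCoeff‖ := norm_pos_iff.mpr (Polynomial.leadingCoeff_ne_zero.mpr hf0)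
  set S : ℝ := ∑ i ∈ Finset.range (f.natDegree + 1), ‖f.coeff i‖ with hS
  have hS0 : 0 ≤ S := Finset.sum_nonneg fun _ _ => norm_nonneg _
  refine ⟨S + 1 / ‖f.leadingCoeff‖ + 1, by positivity, rfl, ?_, ?_⟩
  · intro i
    by_cases hi : i ≤ f.natDegree
    · have h1 : ‖f.coeff i‖ ≤ S :=
        Finset.single_le_sum (f := fun i => ‖f.coeff i‖) (fun _ _ => norm_nonneg _)
          (Finset.mem_range.mpr (by omega))
      have h2 : 0 < 1 / ‖f.leadingCoeff‖ := by positivity
      linarith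
    · rw [Polynomial.coeff_eq_zero_of_natDegree_lt (by omega), norm_zero]
      positivity
  · have h2 : 1 / ‖f.leadingCoeff‖ * ‖f.leadingCoeff‖ = 1 := by field_simp
    calc (1 : ℝ) = 1 / ‖f.leadingCoeff‖ * ‖f.leadingCoeff‖ := h2.symm
      _ ≤ (S + 1 / ‖f.leadingCoeff‖ + 1) * ‖f.leadingCoeff‖ := by
          gcongr
          linarith

/-- invariant line fields are bounded invariant forms. -/
theorem FL_lf {f : Polynomial ℂ} {A : ℝ} (hA : ∀ z ∈ juliaSet (fun z : ℂ => f.eval z), ‖z‖ < A)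
    {μ : ℂ → ℂ} (h : IsInvariantLineField (fun z : ℂ => f.eval z) μ) : LF f A μ := by
  obtain ⟨h1, h2, -, h4, h5⟩ := h
  refine ⟨h1, ?_, fun z hz => hA z (h4 hz), fun z hz => h4 hz, ?_⟩
  · intro z
    by_cases hz : μ z = 0
    · rw [hz, norm_zero]; exact zero_le_one
    · exact (h2 z hz).le
  · filter_upwards [h5] with z hz
    rw [Polynomial.deriv] at hz
    exact hz

/-- linear combinations. -/
theorem FL_comb {f : Polynomial ℂ} {A : ℝ} {N : ℕ} {μ : Fin N → ℂ → ℂ} (h : ∀ i, LF f A (μ i))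
    (l : Fin N → ℂ) : LF f A (fun z => (((1 + ∑ i, ‖l i‖)⁻¹ : ℝ) : ℂ) * ∑ i, l i * μ i z) := by
  have hS0 : 0 ≤ ∑ i, ‖l i‖ := Finset.sum_nonneg fun _ _ => norm_nonneg _
  have hne : ∀ z, (((1 + ∑ i, ‖l i‖)⁻¹ : ℝ) : ℂ) * ∑ i, l i * μ i z ≠ 0 → ∃ i, μ i z ≠ 0 := by
    intro z hz
    by_contra hcon
    push Not at hcon
    apply hz
    have h0 : ∑ i, l i * μ i z = 0 :=
      Finset.sum_eq_zero (fun i _ => by rw [hcon i, mul_zero])
    rw [h0, mul_zero]
  refine ⟨?_, ?_, ?_, ?_, ?_⟩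
  · exact measurable_const.mul (Finset.measurable_sum _ fun i _ => measurable_const.mul (h i).meas)
  · intro z
    rw [norm_mul, Complex.norm_real, Real.norm_of_nonneg (by positivity)]
    have h1 : ‖∑ i, l i * μ i z‖ ≤ ∑ i, ‖l i‖ := by
      refine (norm_sum_le _ _).trans (Finset.sum_le_sum fun i _ => ?_)
      rw [norm_mul]
      exact mul_le_of_le_one_right (norm_nonneg _) ((h i).bd z)
    calc (1 + ∑ i, ‖l i‖)⁻¹ * ‖∑ i, l i * μ i z‖ ≤ (1 + ∑ i, ‖l i‖)⁻¹ * (1 + ∑ i, ‖l i‖) := by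
          gcongr
          linarith
      _ = 1 := inv_mul_cancel₀ (by positivity)
  · intro z hz
    obtain ⟨i, hi⟩ := hne z hz
    exact (h i).supp z hi
  · intro z hz
    obtain ⟨i, hi⟩ := hne z hz
    exact (h i).julia z hi
  · have h1 : ∀ᵐ z : ℂ, ∀ i, μ i (f.eval z) * (starRingEnd ℂ) (fd f z) / fd f z = μ i z :=
      ae_all_iff.mpr fun i => (h i).inv
    filter_upwards [h1] with z hz
    rw [mul_assoc, mul_div_assoc, Finset.sum_mul, Finset.sum_div]
    congr 1
    refine Finset.sum_congr rfl fun i _ => ?_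
    rw [← hz i]
    ring

/-- fixed points: the logarithms of the multipliers of the repelling ones are bounded below. -/
theorem FL_fix (f : Polynomial ℂ) (h : 2 ≤ f.natDegree) : ∃ η > (0 : ℝ), ∀ z : ℂ, f.eval z = z →
    1 < ‖fd f z‖ → η ≤ Real.log ‖fd f z‖ := by
  have hfin : {z : ℂ | f.eval z = z}.Finite := by
    have hP0 : f - Polynomial.X ≠ 0 := by
      intro h0
      have h1 : f = Polynomial.X := sub_eq_zero.mp h0
      rw [h1, Polynomial.natDegree_X] at h
      omega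
    refine ((f - Polynomial.X).roots.toFinset.finite_toSet).subset ?_
    intro z hz
    simp only [Finset.mem_coe, Multiset.mem_toFinset]
    rw [Polynomial.mem_roots hP0, Polynomial.IsRoot.def, Polynomial.eval_sub, Polynomial.eval_X]
    have : f.eval z = z := hz
    rw [this, sub_self]
  have hev : ∀ᶠ e in 𝓝[>] (0 : ℝ), ∀ z ∈ {z : ℂ | f.eval z = z}, 1 < ‖fd f z‖ →
      e ≤ Real.log ‖fd f z‖ := by
    rw [Filter.eventually_all_finite hfin]
    intro z _
    by_cases h1 : 1 < ‖fd f z‖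
    · have h2 : ∀ᶠ e in 𝓝[>] (0 : ℝ), e < Real.log ‖fd f z‖ :=
        nhdsWithin_le_nhds (gt_mem_nhds (Real.log_pos h1))
      filter_upwards [h2] with e he _
      exact he.le
    · exact Eventually.of_forall fun e h => absurd h h1
  obtain ⟨e, he, hepos⟩ := (hev.and self_mem_nhdsWithin).exists
  exact ⟨e, hepos, fun z hz h1 => he z hz h1⟩

/-- `1/‖z - v‖` is integrable on bounded balls. -/
theorem FL_int (hMI : MPS.MI_stmt) (v : ℂ) {R : ℝ} (hR : 0 ≤ R) :
    IntegrableOn (fun z : ℂ => 1 / ‖z - v‖) (ball 0 R) := by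
  refine (hMI.2 v (R + ‖v‖) (by positivity)).1.mono_set ?_
  intro z hz
  rw [mem_ball, dist_eq_norm] at hz ⊢
  rw [sub_zero] at hz
  calc ‖z - v‖ ≤ ‖z‖ + ‖v‖ := norm_sub_le _ _
    _ < R + ‖v‖ := by linarith

theorem FL (hTHB0 : THB0_stmt) (hPRB : PRB_stmt) (hJBD : JBD_stmt) (hCTA : CTA_stmt)
    (hLNZ : LNZ_stmt) (hMAT : MAT_stmt) (hERV : ERV_stmt) (hINQ : INQ_stmt) (hZCY : ZCY_stmt)
    (hTG : TG_stmt) (hMI : MPS.MI_stmt) : FL_stmt := by
  intro f hn μ hμ hind d hd
  obtain ⟨A, hA⟩ := hJBD f hn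
  have hLF : ∀ i, LF f A (μ i) := fun i => FL_lf hA (hμ i)
  obtain ⟨-, -, -, -, hVfin, -⟩ := hPRB f (by omega)
  -- enumeration of the critical values
  set V : Finset ℂ := hVfin.toFinset with hV
  have hVmem : ∀ v, v ∈ V ↔ v ∈ CV f := fun v => hVfin.mem_toFinset
  have hVcard : V.card = (CV f).ncard := (Set.ncard_eq_toFinset_card _ hVfin).symm
  let e : Fin (CV f).ncard ≃ V := (V.equivFinOfCardEq hVcard).symm
  have hsumV : ∀ F : ℂ → ℂ, ∑ v ∈ V, F v = ∑ j, F (e j : ℂ) := by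
    intro F
    rw [← Finset.sum_coe_sort V F]
    exact (Equiv.sum_comp e (fun v : V => F (v : ℂ))).symm
  have hInt : ∀ i b, Integrable (fun z => μ i z / (z - b)) := fun i b =>
    (hCTA (μ i) A (hLF i).meas (hLF i).bd (hLF i).supp).1 b
  -- the matrix
  let M : Matrix (Fin (CV f).ncard) (Fin (CV f).ncard) ℂ := fun i j => NLF.CT (μ i) (e j : ℂ)
  obtain ⟨C, hC, hM⟩ := hMAT (Fin (CV f).ncard) M (by
    intro l hl
    apply hind
    have hS0 : 0 ≤ ∑ i, ‖l i‖ := Finset.sum_nonneg fun _ _ => norm_nonneg _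
    have h1 := hLNZ f A _ hn (FL_comb hLF l) (by
      intro v hv
      have hj : ∃ j, (e j : ℂ) = v := ⟨e.symm ⟨v, (hVmem v).mpr hv⟩, by simp⟩
      obtain ⟨j, rfl⟩ := hj
      have h2 : NLF.CT (fun z => (((1 + ∑ i, ‖l i‖)⁻¹ : ℝ) : ℂ) * ∑ i, l i * μ i z) (e j : ℂ) =
          (((1 + ∑ i, ‖l i‖)⁻¹ : ℝ) : ℂ) * ∑ i, l i * M i j := by
        unfold NLF.CT
        have h3 : ∀ z : ℂ, (((1 + ∑ i, ‖l i‖)⁻¹ : ℝ) : ℂ) * (∑ i, l i * μ i z) / (z - (e j : ℂ)) =
            (((1 + ∑ i, ‖l i‖)⁻¹ : ℝ) : ℂ) * ∑ i, l i * (μ i z / (z - (e j : ℂ))) := by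
          intro z
          rw [mul_div_assoc, Finset.sum_div]
          congr 1
          refine Finset.sum_congr rfl fun i _ => ?_
          rw [mul_div_assoc]
        rw [integral_congr_ae (Eventually.of_forall h3), integral_const_mul,
          integral_finsetSum _ (fun i _ => (hInt i _).const_mul _)]
        congr 1
        refine Finset.sum_congr rfl fun i _ => ?_
        rw [integral_const_mul]
        rfl
      rw [h2, hl j, mul_zero])
    filter_upwards [h1] with z hz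
    rcases mul_eq_zero.mp hz with h4 | h4
    · exfalso
      have h5 : ((1 + ∑ i, ‖l i‖)⁻¹ : ℝ) = 0 := by exact_mod_cast h4
      have h6 : (0:ℝ) < (1 + ∑ i, ‖l i‖)⁻¹ := by positivity
      linarith
    · exact h4)
  -- constants
  obtain ⟨a, ha, hBd⟩ := FL_bd f hn
  obtain ⟨R, hR, ε, hε, hT⟩ := hTHB0 f.natDegree a d hn ha hd
  obtain ⟨hinv, hT⟩ := hT f hBd
  obtain ⟨η₂, hη₂, hfix⟩ := FL_fix f hn
  have hR0 : (0 : ℝ) ≤ R := by linarith
  set D : ℝ := ∑ j, ∫ z in ball (0 : ℂ) R, 1 / ‖z - (e j : ℂ)‖ with hD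
  have hD0 : 0 ≤ D := Finset.sum_nonneg fun j _ => integral_nonneg fun z => by positivity
  set K₁ : ℝ := 2 * Real.pi + 4 * (C * ((CV f).ncard * (2 * Real.pi)) * D) with hK₁
  have hK₁0 : 0 < K₁ := by positivity
  refine ⟨min (ε / K₁) η₂, by positivity, ?_⟩
  intro k z hcyc h1 hdist
  obtain ⟨hk0, hper⟩ := hcyc
  have hmlt0 : mlt f k z ≠ 0 := by
    intro h0
    rw [h0, norm_zero] at h1
    linarith
  by_cases hk2 : 2 ≤ k
  · -- period at least two
    refine (min_le_left _ _).trans ?_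
    have : NeZero k := ⟨by omega⟩
    obtain ⟨b, -, -, -, -, hrho, hIs⟩ := hZCY f k z ⟨hk0, hper⟩
    have hC' := hIs hmlt0
    rw [← hrho] at h1 hdist ⊢
    have hrho1 : rho f b ≠ 1 := by
      intro h
      rw [h, norm_one] at h1
      exact lt_irrefl _ h1
    obtain ⟨g, hg, -⟩ := hTG f.natDegree k f b hn rfl hC' hrho1
    obtain ⟨s, hs⟩ := hERV k f b g V hn hC' hg hVmem
    set Lg : ℝ := Real.log ‖rho f b‖ with hLg
    have hLg0 : 0 < Lg := Real.log_pos h1
    have hI : ∀ i, ‖∑ j, M i j * s (e j : ℂ)‖ ≤ 2 * Real.pi * Lg := by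
      intro i
      have h2 := hINQ k f b g A (μ i) hn hC' (hLF i) h1.le hg
      have h3 : ∫ z : ℂ, μ i z * er f b g z = ∑ j, M i j * s (e j : ℂ) := by
        have h4 : ∀ᵐ z : ℂ, μ i z * er f b g z =
            ∑ j, (μ i z / (z - (e j : ℂ))) * s (e j : ℂ) := by
          filter_upwards [hs] with z hz
          rw [hz, hsumV, Finset.mul_sum]
          refine Finset.sum_congr rfl fun j _ => ?_
          ring
        rw [integral_congr_ae h4, integral_finsetSum _ (fun j _ => (hInt i _).mul_const _)]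
        refine Finset.sum_congr rfl fun j _ => ?_
        rw [integral_mul_const]
        rfl
      rw [h3] at h2
      exact h2
    have hsj : ∀ j, ‖s (e j : ℂ)‖ ≤ C * ((CV f).ncard * (2 * Real.pi)) * Lg := by
      intro j
      refine (hM (fun j => s (e j : ℂ)) j).trans ?_
      have h2 : ∑ i, ‖∑ v, M i v * s (e v : ℂ)‖ ≤ ∑ _i : Fin (CV f).ncard, 2 * Real.pi * Lg :=
        Finset.sum_le_sum fun i _ => hI i
      rw [Finset.sum_const, Finset.card_univ, Fintype.card_fin, nsmul_eq_mul] at h2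
      calc C * ∑ i, ‖∑ v, M i v * s (e v : ℂ)‖ ≤ C * ((CV f).ncard * (2 * Real.pi * Lg)) := by
            gcongr
        _ = C * ((CV f).ncard * (2 * Real.pi)) * Lg := by ring
    have hIer : ∫ z in ball (0 : ℂ) R, ‖er f b g z‖ ≤
        C * ((CV f).ncard * (2 * Real.pi)) * Lg * D := by
      have h2 : ∀ᵐ z ∂(volume.restrict (ball (0 : ℂ) R)), ‖er f b g z‖ ≤
          ∑ j, ‖s (e j : ℂ)‖ * (1 / ‖z - (e j : ℂ)‖) := by
        refine ae_restrict_of_ae ?_
        filter_upwards [hs] with z hz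
        rw [hz, hsumV]
        refine (norm_sum_le _ _).trans (Finset.sum_le_sum fun j _ => ?_)
        rw [norm_div, mul_one_div]
      have hint : ∀ j, Integrable (fun z : ℂ => ‖s (e j : ℂ)‖ * (1 / ‖z - (e j : ℂ)‖))
          (volume.restrict (ball (0 : ℂ) R)) := fun j => (FL_int hMI (e j : ℂ) hR0).const_mul _
      calc ∫ z in ball (0 : ℂ) R, ‖er f b g z‖
          ≤ ∫ z in ball (0 : ℂ) R, ∑ j, ‖s (e j : ℂ)‖ * (1 / ‖z - (e j : ℂ)‖) :=
            integral_mono_of_nonneg (Eventually.of_forall fun z => norm_nonneg _)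
              (integrable_finsetSum _ fun j _ => hint j) h2
        _ = ∑ j, ‖s (e j : ℂ)‖ * ∫ z in ball (0 : ℂ) R, 1 / ‖z - (e j : ℂ)‖ := by
            rw [integral_finsetSum _ fun j _ => hint j]
            refine Finset.sum_congr rfl fun j _ => ?_
            rw [integral_const_mul]
        _ ≤ ∑ j, (C * ((CV f).ncard * (2 * Real.pi)) * Lg) *
              ∫ z in ball (0 : ℂ) R, 1 / ‖z - (e j : ℂ)‖ := by
            refine Finset.sum_le_sum fun j _ => ?_
            exact mul_le_mul_of_nonneg_right (hsj j) (integral_nonneg fun z => by positivity)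
        _ = C * ((CV f).ncard * (2 * Real.pi)) * Lg * D := by rw [← Finset.mul_sum]
    have h5 := hT k b g hk2 hC' h1 hdist
    rw [div_le_iff₀ hK₁0]
    calc ε ≤ 2 * Real.pi * Lg + 4 * ∫ z in ball (0 : ℂ) R, ‖er f b g z‖ := h5
      _ ≤ 2 * Real.pi * Lg + 4 * (C * ((CV f).ncard * (2 * Real.pi)) * Lg * D) := by gcongr
      _ = Lg * K₁ := by rw [hK₁]; ring
  · -- fixed points
    refine (min_le_right _ _).trans ?_
    have hk1 : k = 1 := by omega
    subst hk1
    have hfx : f.eval z = z := by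
      have h2 := Function.isPeriodicPt_minimalPeriod (fun w : ℂ => f.eval w) z
      rw [hper] at h2
      simpa [Function.IsPeriodicPt, Function.IsFixedPt] using h2
    have hml : mlt f 1 z = fd f z := by
      unfold mlt fd
      rw [Function.iterate_one, Polynomial.deriv]
    rw [hml] at h1 ⊢
    exact hfix z hfx h1

end PPS
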