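import Pool.Agent.helper36.PP.SpecD
import Pool.Agent.helper43.MQ.NG3

/-!
# Project pp: module NG3 (adapted from helper43/MQ/NG3.lean)
-/

set_option autoImplicit false

open Complex Metric Set Filter Topology MeasureTheory MPS MQ

noncomputable section

namespace PPS

theorem NG3 (hLT : PPS.LT_stmt) (hSYM : MQ.SYM_stmt) (hUNQ : MQ.UNQ_stmt) (hPLB : MQ.PLB_stmt)
    (hCOC : PPS.COC_stmt) : PPS.NG3_stmt := by
  intro n d₀ r₀ ra hn hd₀ hr₀ hr1 hra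
  obtain ⟨Ra, hRa, εa, hεa, hLTa⟩ := hLT n r₀ (r₀ / 10 ^ 6) ra hn hr₀ hr1 (by positivity) hra
  obtain ⟨Rb, hRb, εb, hεb, hLTb⟩ := hLT n (r₀ / 200) (r₀ / 10 ^ 6) ra hn (by positivity)
    (by linarith) (by positivity) hra
  refine ⟨d₀ * r₀ / 8, by positivity, max Ra Rb, lt_max_of_lt_left hRa, min εa εb,
    lt_min hεa hεb, ?_⟩
  intro k _ f b g ψ R ε hSU hF hR hε hρ1 hρ2 i l S y hil h2 hS hStrip
  have hRa' : Ra ≤ R := (le_max_left _ _).trans hR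
  have hRb' : Rb ≤ R := (le_max_right _ _).trans hR
  have hεa' : ε ≤ εa := hε.trans (min_le_left _ _)
  have hεb' : ε ≤ εb := hε.trans (min_le_right _ _)
  have hρ0 : PPS.rho f b ≠ 0 := by
    intro h
    have := hSU.rho1
    rw [h, norm_zero] at this
    linarith
  have hk1 : 1 ≤ k := Nat.one_le_iff_ne_zero.mpr (NeZero.ne k)
  have hS1 : S.re ≤ r₀ / 1000 := by
    have : r₀ / 10 ^ 6 ≤ r₀ / 1000 := by
      rw [div_le_div_iff₀ (by positivity) (by positivity)]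
      nlinarith
    linarith
  set l' : ZMod k := i - (l - i) with hl'
  have hil' : i ≠ l' := by
    intro h
    apply hil
    rw [hl'] at h
    have h3 : l - i = 0 := by
      have h4 : i - (i - (l - i)) = l - i := by ring
      rw [← h, sub_self] at h4
      exact h4.symm
    exact (sub_eq_zero.mp h3).symm
  have hll' : l ≠ l' := by
    intro h
    apply h2
    rw [hl'] at h
    have h3 : l + l = i - (l - i) + l := by rw [← h]
    rw [h3]
    ring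
  -- the strip to `l'`
  have hq : (((l - i).val : ℕ) : ZMod k) = l - i := ZMod.natCast_zmod_val _
  have hq1 : 1 ≤ (l - i).val := by
    rw [Nat.one_le_iff_ne_zero, Ne, ZMod.val_eq_zero, sub_eq_zero]
    exact fun h => hil h.symm
  have hqk : (l - i).val ≤ k := (ZMod.val_lt _).le
  obtain ⟨κa, κa', Sa, -, -, hSa, hκa, hκa', hStra⟩ :=
    hLTa k f b g ψ R ε hSU hF hRa' hεa' i l (l - i).val S y hil hq1 hqk hStrip hS1
  rw [hq, ← hl', sub_sub_cancel] at hStra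
  have hSare : Sa.re ≤ r₀ / 200 / 1000 := by
    have h3 := (Complex.abs_re_le_norm (Sa - (S + κa + κa'))).trans hSa
    have h4 := (abs_le.1 h3).2
    rw [Complex.sub_re, Complex.add_re, Complex.add_re] at h4
    have h5 := (abs_le.1 hκa).2
    have h6 := (abs_le.1 hκa').2
    have h7 : r₀ / 200 / 1000 = 5 * (r₀ / 10 ^ 6) := by ring
    have h8 : 0 < r₀ / 10 ^ 6 := by positivity
    linarith
  have hSYMa := (hSYM k b g l' i (ψ l') (ψ i) (hF.mx l').pn (hF.mx i).pn Sa _ _ hStra).1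
  set z : ℝ := Sa.im - (y + κa.im) with hz
  have ez1 : Sa.im - (y + κa.im + r₀ / 200) = z - r₀ / 200 := by rw [hz]; ring
  have ez2 : Sa.im - (y + κa.im - r₀ / 200) = z + r₀ / 200 := by rw [hz]; ring
  rw [ez1, ez2] at hSYMa
  -- the second strips
  obtain ⟨κ₁, -, S₁, hκ₁, -, -, -, -, hStr1⟩ :=
    hLTa k f b g ψ R ε hSU hF hRa' hεa' i l k S y hil hk1 le_rfl hStrip hS1
  obtain ⟨κ₂, -, S₂, hκ₂, -, -, -, -, hStr2⟩ :=
    hLTb k f b g ψ R ε hSU hF hRb' hεb' i l' k Sa z hil' hk1 le_rfl hSYMa hSare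
  rw [ZMod.natCast_self, sub_zero, sub_zero] at hStr1 hStr2
  have hKq := (hCOC k f b ψ hSU.cyc.ne0 (fun j => (hF.mx j).pn.der) i).2.2.1
  rw [hKq] at hκ₁ hκ₂
  obtain ⟨m₁, a₁, hm₁, ha₁⟩ := MQ.NG3_kappa _ κ₁ d₀ _ hρ0 hκ₁ hd₀ hρ1 hρ2
  obtain ⟨m₂, a₂, hm₂, ha₂⟩ := MQ.NG3_kappa _ κ₂ d₀ _ hρ0 hκ₂ hd₀ hρ1 hρ2
  have hd : 2 * (d₀ * r₀ / 8 / d₀) = r₀ / 4 := by
    field_simp
    ring
  rw [hd] at ha₁ ha₂
  rw [hm₁] at hStr1
  rw [hm₂] at hStr2
  have he : 0 < r₀ / 200 / 200 := by positivity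
  have hC : Strip b g (ψ i) (ψ l') Sa (z - r₀ / 200 / 200) (z + r₀ / 200 / 200) :=
    (hSYM k b g i l' (ψ i) (ψ l') (hF.mx i).pn (hF.mx l').pn Sa _ _ hSYMa).2.2.1 _ _
      (by linarith) (by linarith)
  have hB := (hSYM k b g i l (ψ i) (ψ l) (hF.mx i).pn (hF.mx l).pn S₁ _ _ hStr1).2.2.1
    (y + (Real.pi + a₁ + m₁ * (2 * Real.pi)) - r₀ / 200 / 200)
    (y + (Real.pi + a₁ + m₁ * (2 * Real.pi)) + r₀ / 200 / 200) (by linarith) (by linarith)
  exact MQ.NG3_core hSYM hUNQ hPLB b g ψ hF i l l' hil hil' hll' r₀ (r₀ / 200 / 200) y z a₁ a₂ m₁ m₂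
    S S₁ Sa S₂ he (by linarith) hStrip hB hC hStr2 ha₁ ha₂

end PPS

end
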