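import Pool.Agent.helper25.PP.Spec

/-!
# DT3: no edge is in exactly two triangles
-/

set_option autoImplicit false

namespace PP

open Finset SimpleGraph CT

theorem DT3 : DT3_stmt := by
  classical
  intro V _ _ G hE hcard u w huw h2
  rw [Nat.card_eq_two_iff] at h2
  obtain ⟨⟨z₁, h11, h12⟩, ⟨z₂, h21, h22⟩, hne, -⟩ := h2
  have hz : z₁ ≠ z₂ := fun h => hne (Subtype.ext h)
  apply hE
  have hB : ({u, w, z₁, z₂} : Finset V).card = 4 := by
    rw [card_insert_of_notMem, card_insert_of_notMem, card_insert_of_notMem, card_singleton]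
    · simpa using hz
    · simp only [mem_insert, mem_singleton, not_or]
      exact ⟨h12.ne, h22.ne⟩
    · simp only [mem_insert, mem_singleton, not_or]
      exact ⟨huw.ne, h11.ne, h21.ne⟩
  refine ⟨{u, w, z₁, z₂}, hB.ge, by rw [hB]; exact hcard, ?_⟩
  set B : Finset V := {u, w, z₁, z₂} with hBd
  have hsub : B ×ˢ B ⊆ inn G B ∪
      {(u, u), (w, w), (z₁, z₁), (z₂, z₂), (z₁, z₂), (z₂, z₁)} := by
    rintro ⟨a, b⟩ hp
    rw [mem_product] at hp
    obtain ⟨ha, hb⟩ := hp
    rw [mem_union, mem_ein]
    simp only at ha hb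
    by_cases hadj : G.Adj a b
    · exact Or.inl ⟨⟨ha, hb⟩, hadj⟩
    · right
      rw [hBd] at ha hb
      simp only [mem_insert, mem_singleton] at ha hb
      simp only [mem_insert, mem_singleton, Prod.mk.injEq]
      rcases ha with rfl | rfl | rfl | rfl <;> rcases hb with rfl | rfl | rfl | rfl <;>
        first
        | exact absurd (by assumption) hadj
        | exact absurd (SimpleGraph.Adj.symm (by assumption)) hadj
        | simp
  have h1 := (card_le_card hsub).trans (card_union_le _ _)
  rw [card_product, hB] at h1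
  have h3 : ({(u, u), (w, w), (z₁, z₁), (z₂, z₂), (z₁, z₂), (z₂, z₁)} : Finset (V × V)).card ≤ 6 :=
    card_le_six
  have h4 : ein G B = (inn G B).card := rfl
  rw [hB, h4]
  omega

end PP
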